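import Pool.Agent.Helper76.TC.Goals

/-!
# TC-SE (packet of helper76, MP_ccd65d_gt)
-/

set_option autoImplicit false

open Set

namespace Pool.Agent.Helper15.TC.SE

open Pool.Agent.Helper50.CT (StmtGH Cov)
open Pool.Agent.Helper76.TC

theorem t (hGH : StmtGH) : S_SE := by
  intro n A l δ X T _ _ _ _ _ _ π hc hA ht hl hδ
  have h0 : 0 < δ := by
    refine lt_of_le_of_lt ?_ hδ
    have : GromovHausdorff.ghDist T (Icc (0 : ℝ) l) =
      dist (GromovHausdorff.toGHSpace T) (GromovHausdorff.toGHSpace (Icc (0 : ℝ) l)) := rfl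
    rw [this]
    exact dist_nonneg
  obtain ⟨p', q', h1, _, h3, h4⟩ := hGH T l δ hl hδ
  obtain ⟨p, rfl⟩ := hc.surj p'
  obtain ⟨q, rfl⟩ := hc.surj q'
  refine ⟨p, q, dist (π p) (π q), ⟨hc, hA, ht, by positivity, fun x y => h1 _ _, rfl, fun x => ?_⟩, h4⟩
  have := h3 (π x)
  have := dist_nonneg (x := π q) (y := π x)
  linarith

end Pool.Agent.Helper15.TC.SE
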